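import Pool.Agent.KTR.Linear

/-!
MP_877e0f_co, Q1: finite (k,t)-regular graphs exist for all even `k ≥ 8t` and for all
odd `k ≥ 9t` with `t` even.
-/

namespace Pool.Agent.Results.MP_877e0f_co.LinearExistence

/-- `G` is (k,t)-regular: every vertex has exactly `k` neighbours (in particular finitely many)
and the two ends of every edge have exactly `t` common neighbours. -/
def IsKTRegular {V : Type*} (G : SimpleGraph V) (k t : ℕ) : Prop :=
  (∀ v, (G.neighborSet v).encard = k) ∧
    ∀ v w, G.Adj v w → (G.neighborSet v ∩ G.neighborSet w).encard = t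

theorem result (k t : ℕ) (hkt : Even (k * t)) (hk : 8 * t ≤ k) (hk' : Odd k → 9 * t ≤ k) :
    ∃ (n : ℕ) (H : SimpleGraph (Fin (n + 1))), IsKTRegular H k t :=
  Pool.Agent.KTR.ex_linear k t hkt hk hk'

end Pool.Agent.Results.MP_877e0f_co.LinearExistence
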