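import Pool.Agent.KTR.Main

/-!
MP_877e0f_co, Q1: every connected (k,t)-regular graph with `k ≤ 2t+1` is finite, of order bounded
in terms of `k` and `t`; so for `k ≤ 2t+1` the existence of any (k,t)-regular graph implies
the existence of a finite one.
-/

universe u

namespace Pool.Agent.Results.MP_877e0f_co.SmallDegreeFinite

open Pool.Agent.KTR

/-- `G` is (k,t)-regular: every vertex has exactly `k` neighbours (in particular finitely many)
and the two ends of every edge have exactly `t` common neighbours. -/
def IsKTRegular {V : Type*} (G : SimpleGraph V) (k t : ℕ) : Prop :=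
  (∀ v, (G.neighborSet v).encard = k) ∧
    ∀ v w, G.Adj v w → (G.neighborSet v ∩ G.neighborSet w).encard = t

lemma exists_nb {V : Type*} [DecidableEq V] {G : SimpleGraph V} {k t : ℕ}
    (h : IsKTRegular G k t) : ∃ N : V → Finset V, Nb G k t N := by
  have hfin : ∀ v, (G.neighborSet v).Finite := fun v => Set.finite_of_encard_eq_coe (h.1 v)
  refine ⟨fun v => (hfin v).toFinset, ?_, ?_, ?_⟩
  · intro v w
    simp
  · intro v
    have h1 := h.1 v
    rw [(hfin v).encard_eq_coe_toFinset_card] at h1
    exact_mod_cast h1
  · intro v w hvw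
    have h1 := h.2 v w hvw
    have h2 : ((G.neighborSet v) ∩ (G.neighborSet w))
        = (((hfin v).toFinset ∩ (hfin w).toFinset : Finset V) : Set V) := by
      ext x; simp
    rw [h2, Set.encard_coe_eq_coe_finsetCard] at h1
    exact_mod_cast h1

/-- A (k,t)-regular graph restricts to vertex sets closed under adjacency. -/
lemma IsKTRegular.comap {V W : Type*} {G : SimpleGraph V} {H : SimpleGraph W} {k t : ℕ}
    (h : IsKTRegular G k t) (f : H ↪g G) (hf : ∀ w v, G.Adj (f w) v → v ∈ Set.range f) :
    IsKTRegular H k t := by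
  have e : ∀ w, H.neighborSet w = f ⁻¹' (G.neighborSet (f w)) := by
    intro w
    ext x
    simp [SimpleGraph.mem_neighborSet]
  constructor
  · intro w
    rw [e, Set.encard_preimage_of_injective_subset_range f.injective]
    · exact h.1 _
    · intro v hv
      exact hf w v hv
  · intro v w hvw
    rw [e, e, ← Set.preimage_inter, Set.encard_preimage_of_injective_subset_range f.injective]
    · exact h.2 _ _ (f.map_adj_iff.2 hvw)
    · intro x hx
      exact hf v x hx.1

theorem result (k t : ℕ) (hkt : k ≤ 2 * t + 1) :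
    (∃ M : ℕ, ∀ (V : Type u) (G : SimpleGraph V), IsKTRegular G k t → G.Connected →
      Finite V ∧ Nat.card V ≤ M) ∧
    (∀ (V : Type u) (G : SimpleGraph V), Nonempty V → IsKTRegular G k t →
      ∃ (n : ℕ) (H : SimpleGraph (Fin (n + 1))), IsKTRegular H k t) := by
  have main : ∃ M : ℕ, ∀ (V : Type u) (G : SimpleGraph V), IsKTRegular G k t → G.Connected →
      Finite V ∧ Nat.card V ≤ M := by
    obtain ⟨B, hB⟩ := dist_bound.{u} k t hkt
    refine ⟨(k + 1) ^ B, ?_⟩
    intro V G h hc
    classical
    obtain ⟨N, hN⟩ := exists_nb h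
    obtain ⟨o⟩ := hc.nonempty
    have huniv : (Set.univ : Set V) ⊆ ((bal N o B : Finset V) : Set V) := by
      intro v _
      exact mem_bal hN hc o B v (hB V G N hN hc o v)
    have hfin : (Set.univ : Set V).Finite := (bal N o B).finite_toSet.subset huniv
    have hfinV : Finite V := Set.finite_univ_iff.1 hfin
    refine ⟨hfinV, ?_⟩
    calc Nat.card V = (Set.univ : Set V).ncard := (Set.ncard_univ V).symm
      _ ≤ ((bal N o B : Finset V) : Set V).ncard :=
          Set.ncard_le_ncard huniv (bal N o B).finite_toSet
      _ = (bal N o B).card := Set.ncard_coe_finset _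
      _ ≤ (k + 1) ^ B := card_bal hN o B
  refine ⟨main, ?_⟩
  obtain ⟨M, hM⟩ := main
  intro V G hne h
  classical
  obtain ⟨v⟩ := hne
  set c := G.connectedComponentMk v with hc
  -- the component of v
  have hreg : IsKTRegular (G.induce c.supp) k t := by
    refine h.comap (SimpleGraph.Embedding.induce c.supp) ?_
    intro w x hwx
    have hx : x ∈ c.supp := by
      have hw : (w : V) ∈ c.supp := w.2
      rw [SimpleGraph.ConnectedComponent.mem_supp_iff] at hw ⊢
      rw [← hw]
      exact (SimpleGraph.ConnectedComponent.eq.2 hwx.reachable).symm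
    exact ⟨⟨x, hx⟩, rfl⟩
  have hconn : (G.induce c.supp).Connected := c.connected_toSimpleGraph
  obtain ⟨hfin, -⟩ := hM _ _ hreg hconn
  obtain ⟨n, hn⟩ : ∃ n, Nat.card c.supp = n + 1 := by
    have : 0 < Nat.card c.supp := by
      have : Nonempty c.supp := hconn.nonempty
      exact Nat.card_pos
    exact ⟨Nat.card c.supp - 1, by omega⟩
  let e : c.supp ≃ Fin (n + 1) := (Finite.equivFin _).trans (finCongr hn)
  refine ⟨n, (G.induce c.supp).map e.toEmbedding, ?_⟩
  have e' : (G.induce c.supp).map e.toEmbedding ≃g G.induce c.supp :=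
    (SimpleGraph.Iso.map e _).symm
  refine hreg.comap e'.toEmbedding ?_
  intro w x _
  exact ⟨e'.symm x, by simp⟩

end Pool.Agent.Results.MP_877e0f_co.SmallDegreeFinite
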